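import Mathlib
import Pool.Agent.R109.Chars

set_option autoImplicit false

/-!
# The rank of abelian groups containing both mates of a latin bitrade

If both mates of a latin bitrade `(W, B)` embed in some abelian group, then both embed in an abelian
group generated by at most `2 log₂ |W| + 5` elements. In particular the least rank does not grow
linearly in `|W|` along any family.
-/

namespace Pool.Agent.Results.MP_4671c3_co.LogarithmicRank

open Finset Filter Pool.Agent.R109.Chars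

/-- A partial latin square: a finite set of triples (row, column, symbol) in which any two
coordinates determine the third. -/
def IsPLS (P : Finset (ℕ × ℕ × ℕ)) : Prop :=
  ∀ p ∈ P, ∀ q ∈ P, (p.1 = q.1 → p.2.1 = q.2.1 → p = q) ∧ (p.1 = q.1 → p.2.2 = q.2.2 → p = q) ∧
    (p.2.1 = q.2.1 → p.2.2 = q.2.2 → p = q)

/-- A latin bitrade `(W, B)`: two nonempty partial latin squares which fill the same cells, have the
same symbols in each row and in each column, and have no triple in common. -/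
structure IsBitrade (W B : Finset (ℕ × ℕ × ℕ)) : Prop where
  nonempty : W.Nonempty ∧ B.Nonempty
  pls : IsPLS W ∧ IsPLS B
  cells : ∀ r c, (∃ s, (r, c, s) ∈ W) ↔ ∃ s, (r, c, s) ∈ B
  rows : ∀ r s, (∃ c, (r, c, s) ∈ W) ↔ ∃ c, (r, c, s) ∈ B
  cols : ∀ c s, (∃ r, (r, c, s) ∈ W) ↔ ∃ r, (r, c, s) ∈ B
  disj : Disjoint W B

/-- `P` embeds in the abelian group `G`: there are maps `α, β, γ` of the rows, columns and symbols
into `G`, injective on the rows, the columns and the symbols of `P`, with `α r + β c = γ s` for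
every triple `(r, c, s)` of `P`. -/
def Embeds (P : Finset (ℕ × ℕ × ℕ)) (G : Type*) [AddCommGroup G] : Prop :=
  ∃ α β γ : ℕ → G, Set.InjOn α {r | ∃ c s, (r, c, s) ∈ P} ∧
    Set.InjOn β {c | ∃ r s, (r, c, s) ∈ P} ∧ Set.InjOn γ {s | ∃ r c, (r, c, s) ∈ P} ∧
    ∀ r c s, (r, c, s) ∈ P → α r + β c = γ s

/-- `G` can be generated by at most `d` elements. -/
def GeneratedBy (G : Type*) [AddCommGroup G] (d : ℕ) : Prop :=
  ∃ T : Finset G, T.card ≤ d ∧ AddSubgroup.closure (T : Set G) = ⊤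

/-- Both mates embed in one abelian group which can be generated by at most `d` elements. -/
def EmbedInRank (W B : Finset (ℕ × ℕ × ℕ)) (d : ℕ) : Prop :=
  ∃ (G : Type) (_ : AddCommGroup G), GeneratedBy G d ∧ Embeds W G ∧ Embeds B G

/-- the nonzero differences of the values of a map on a finite set -/
noncomputable def diffs {G : Type*} [AddCommGroup G] (X : Finset ℕ) (f : ℕ → G) : Finset G := by
  classical
  exact ((X ×ˢ X).image fun p => f p.1 - f p.2).filter fun d => d ≠ 0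

theorem card_diffs {G : Type*} [AddCommGroup G] (X : Finset ℕ) (f : ℕ → G) (n : ℕ)
    (h : X.card ≤ n) : (diffs X f).card ≤ n ^ 2 := by
  classical
  unfold diffs
  refine (Finset.card_filter_le _ _).trans (Finset.card_image_le.trans ?_)
  rw [Finset.card_product, pow_two]
  exact Nat.mul_le_mul h h

theorem mem_diffs {G : Type*} [AddCommGroup G] {X : Finset ℕ} {f : ℕ → G} {x y : ℕ}
    (hx : x ∈ X) (hy : y ∈ X) (h : f x ≠ f y) : f x - f y ∈ diffs X f := by
  classical
  unfold diffs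
  rw [Finset.mem_filter]
  exact ⟨Finset.mem_image.2 ⟨(x, y), Finset.mem_product.2 ⟨hx, hy⟩, rfl⟩, sub_ne_zero.2 h⟩

theorem ne_of_mem_diffs {G : Type*} [AddCommGroup G] {X : Finset ℕ} {f : ℕ → G} {d : G}
    (h : d ∈ diffs X f) : d ≠ 0 := by
  classical
  unfold diffs at h
  exact (Finset.mem_filter.1 h).2

/-- the inclusion of the elements of a subgroup, extended by zero -/
noncomputable def toH (H : AddSubgroup QZ) (x : QZ) : H := by
  classical
  exact if h : x ∈ H then ⟨x, h⟩ else 0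

theorem toH_add {H : AddSubgroup QZ} {x y : QZ} (hx : x ∈ H) (hy : y ∈ H) :
    toH H x + toH H y = toH H (x + y) := by
  unfold toH
  rw [dif_pos hx, dif_pos hy, dif_pos (H.add_mem hx hy)]
  rfl

theorem toH_inj {H : AddSubgroup QZ} {x y : QZ} (hx : x ∈ H) (hy : y ∈ H)
    (h : toH H x = toH H y) : x = y := by
  unfold toH at h
  rw [dif_pos hx, dif_pos hy] at h
  exact congrArg Subtype.val h

/-- the power of a cyclic group is generated by `k` elements -/
theorem generatedBy_pi (k : ℕ) (g : QZ) :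
    GeneratedBy (Fin k → AddSubgroup.zmultiples g) k := by
  classical
  refine ⟨Finset.univ.image fun i : Fin k =>
    Pi.single i (⟨g, AddSubgroup.mem_zmultiples g⟩ : AddSubgroup.zmultiples g), ?_, ?_⟩
  · exact Finset.card_image_le.trans (by simp)
  · rw [eq_top_iff]
    intro f _
    have hf : f = ∑ i, Pi.single i (f i) := (Finset.univ_sum_single f).symm
    rw [hf]
    apply AddSubgroup.sum_mem
    intro i _
    obtain ⟨z, hz⟩ := AddSubgroup.mem_zmultiples_iff.1 (f i).2
    have e : Pi.single i (f i) = z • (Pi.single i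
        (⟨g, AddSubgroup.mem_zmultiples g⟩ : AddSubgroup.zmultiples g) :
        Fin k → AddSubgroup.zmultiples g) := by
      rw [← Pi.single_smul]
      congr 1
      exact Subtype.ext hz.symm
    rw [e]
    apply AddSubgroup.zsmul_mem
    apply AddSubgroup.subset_closure
    rw [Finset.mem_coe, Finset.mem_image]
    exact ⟨i, Finset.mem_univ _, rfl⟩

/-- **Logarithmic rank.** -/
theorem logBound {G : Type*} [AddCommGroup G] {W B : Finset (ℕ × ℕ × ℕ)} (h : IsBitrade W B)
    (hW : Embeds W G) (hB : Embeds B G) : EmbedInRank W B (2 * Nat.log 2 W.card + 5) := by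
  classical
  obtain ⟨α, β, γ, hα, hβ, hγ, hs⟩ := hW
  obtain ⟨α', β', γ', hα', hβ', hγ', hs'⟩ := hB
  set n := W.card with hn
  set k := 2 * Nat.log 2 n + 5 with hk
  set XR := W.image fun t => t.1 with hXR
  set XC := W.image fun t => t.2.1 with hXC
  set XS := W.image fun t => t.2.2 with hXS
  have cR : XR.card ≤ n := Finset.card_image_le
  have cC : XC.card ≤ n := Finset.card_image_le
  have cS : XS.card ≤ n := Finset.card_image_le
  have mR : ∀ r c s, (r, c, s) ∈ W → r ∈ XR := fun r c s ht => Finset.mem_image.2 ⟨_, ht, rfl⟩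
  have mC : ∀ r c s, (r, c, s) ∈ W → c ∈ XC := fun r c s ht => Finset.mem_image.2 ⟨_, ht, rfl⟩
  have mS : ∀ r c s, (r, c, s) ∈ W → s ∈ XS := fun r c s ht => Finset.mem_image.2 ⟨_, ht, rfl⟩
  have mR' : ∀ r c s, (r, c, s) ∈ B → r ∈ XR := fun r c s ht => by
    obtain ⟨s', hs'⟩ := (h.cells r c).2 ⟨s, ht⟩
    exact mR _ _ _ hs'
  have mC' : ∀ r c s, (r, c, s) ∈ B → c ∈ XC := fun r c s ht => by
    obtain ⟨s', hs'⟩ := (h.cells r c).2 ⟨s, ht⟩
    exact mC _ _ _ hs'
  have mS' : ∀ r c s, (r, c, s) ∈ B → s ∈ XS := fun r c s ht => by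
    obtain ⟨s', hs'⟩ := (h.rows r s).2 ⟨c, ht⟩
    exact mS _ _ _ hs'
  set D : Finset G := ((diffs XR α ∪ diffs XC β ∪ diffs XS γ) ∪
    (diffs XR α' ∪ diffs XC β' ∪ diffs XS γ')) with hD
  have hD0 : ∀ d ∈ D, d ≠ 0 := by
    intro d hd
    simp only [hD, Finset.mem_union] at hd
    rcases hd with ((hd | hd) | hd) | ((hd | hd) | hd) <;> exact ne_of_mem_diffs hd
  have hDc : D.card ≤ 6 * n ^ 2 := by
    have u1 := Finset.card_union_le (diffs XR α ∪ diffs XC β ∪ diffs XS γ)
      (diffs XR α' ∪ diffs XC β' ∪ diffs XS γ')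
    have u2 := Finset.card_union_le (diffs XR α ∪ diffs XC β) (diffs XS γ)
    have u3 := Finset.card_union_le (diffs XR α) (diffs XC β)
    have u4 := Finset.card_union_le (diffs XR α' ∪ diffs XC β') (diffs XS γ')
    have u5 := Finset.card_union_le (diffs XR α') (diffs XC β')
    have v1 := card_diffs XR α n cR
    have v2 := card_diffs XC β n cC
    have v3 := card_diffs XS γ n cS
    have v4 := card_diffs XR α' n cR
    have v5 := card_diffs XC β' n cC
    have v6 := card_diffs XS γ' n cS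
    rw [hD]
    omega
  have hlt : D.card < 2 ^ k := by
    refine hDc.trans_lt ?_
    have h1 : n < 2 ^ (Nat.log 2 n + 1) := Nat.lt_pow_succ_log_self (by norm_num) n
    have h2 : n ^ 2 < (2 ^ (Nat.log 2 n + 1)) ^ 2 := Nat.pow_lt_pow_left h1 (by norm_num)
    have h3 : 2 ^ k = 8 * (2 ^ (Nat.log 2 n + 1)) ^ 2 := by
      rw [hk, ← pow_mul, show (8 : ℕ) = 2 ^ 3 by norm_num, ← pow_add]
      congr 1
      ring
    omega
  obtain ⟨χ, hχ⟩ := separate k D hD0 hlt
  -- the values of the characters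
  set V : Finset QZ := Finset.univ.biUnion fun i : Fin k =>
    ((XR.image fun x => χ i (α x)) ∪ (XC.image fun x => χ i (β x)) ∪
      (XR.image fun x => χ i (α' x)) ∪ (XC.image fun x => χ i (β' x)) ∪
      (XS.image fun x => χ i (γ x)) ∪ (XS.image fun x => χ i (γ' x))) with hV
  obtain ⟨g, hg⟩ := exists_gen V
  have gen : ∀ (i : Fin k) (x : QZ), x ∈ ((XR.image fun x => χ i (α x)) ∪
      (XC.image fun x => χ i (β x)) ∪
      (XR.image fun x => χ i (α' x)) ∪ (XC.image fun x => χ i (β' x)) ∪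
      (XS.image fun x => χ i (γ x)) ∪ (XS.image fun x => χ i (γ' x))) →
      x ∈ AddSubgroup.zmultiples g :=
    fun i x hx => hg x (Finset.mem_biUnion.2 ⟨i, Finset.mem_univ i, hx⟩)
  have g1 : ∀ (i : Fin k), ∀ x ∈ XR, χ i (α x) ∈ AddSubgroup.zmultiples g := fun i x hx =>
    gen i _ (by simp only [Finset.mem_union]; left; left; left; left; left
                exact Finset.mem_image_of_mem _ hx)
  have g2 : ∀ (i : Fin k), ∀ x ∈ XC, χ i (β x) ∈ AddSubgroup.zmultiples g := fun i x hx =>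
    gen i _ (by simp only [Finset.mem_union]; left; left; left; left; right
                exact Finset.mem_image_of_mem _ hx)
  have g3 : ∀ (i : Fin k), ∀ x ∈ XR, χ i (α' x) ∈ AddSubgroup.zmultiples g := fun i x hx =>
    gen i _ (by simp only [Finset.mem_union]; left; left; left; right
                exact Finset.mem_image_of_mem _ hx)
  have g4 : ∀ (i : Fin k), ∀ x ∈ XC, χ i (β' x) ∈ AddSubgroup.zmultiples g := fun i x hx =>
    gen i _ (by simp only [Finset.mem_union]; left; left; right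
                exact Finset.mem_image_of_mem _ hx)
  have g5 : ∀ (i : Fin k), ∀ x ∈ XS, χ i (γ x) ∈ AddSubgroup.zmultiples g := fun i x hx =>
    gen i _ (by simp only [Finset.mem_union]; left; right
                exact Finset.mem_image_of_mem _ hx)
  have g6 : ∀ (i : Fin k), ∀ x ∈ XS, χ i (γ' x) ∈ AddSubgroup.zmultiples g := fun i x hx =>
    gen i _ (by simp only [Finset.mem_union]; right
                exact Finset.mem_image_of_mem _ hx)
  let Φ : (ℕ → G) → ℕ → (Fin k → AddSubgroup.zmultiples g) :=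
    fun f x i => toH _ (χ i (f x))
  have hinj : ∀ (X : Finset ℕ) (f : ℕ → G), (∀ (i : Fin k), ∀ x ∈ X,
      χ i (f x) ∈ AddSubgroup.zmultiples g) → (∀ d ∈ diffs X f, d ∈ D) →
      ∀ x ∈ X, ∀ y ∈ X, Φ f x = Φ f y → f x = f y := by
    intro X f hX hDX x hx y hy hxy
    by_contra hne
    obtain ⟨i, hi⟩ := hχ _ (hDX _ (mem_diffs hx hy hne))
    apply hi
    rw [map_sub, sub_eq_zero]
    exact toH_inj (hX i x hx) (hX i y hy) (congrFun hxy i)
  have d1 : ∀ d ∈ diffs XR α, d ∈ D := fun d hd => by simp [hD, hd]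
  have d2 : ∀ d ∈ diffs XC β, d ∈ D := fun d hd => by simp [hD, hd]
  have d3 : ∀ d ∈ diffs XS γ, d ∈ D := fun d hd => by simp [hD, hd]
  have d4 : ∀ d ∈ diffs XR α', d ∈ D := fun d hd => by simp [hD, hd]
  have d5 : ∀ d ∈ diffs XC β', d ∈ D := fun d hd => by simp [hD, hd]
  have d6 : ∀ d ∈ diffs XS γ', d ∈ D := fun d hd => by simp [hD, hd]
  refine ⟨Fin k → AddSubgroup.zmultiples g, inferInstance, generatedBy_pi k g, ?_, ?_⟩
  · refine ⟨Φ α, Φ β, Φ γ, ?_, ?_, ?_, ?_⟩
    · rintro x ⟨c, s, hx⟩ y ⟨c', s', hy⟩ hxy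
      exact hα ⟨c, s, hx⟩ ⟨c', s', hy⟩ (hinj XR α g1 d1 x (mR _ _ _ hx) y (mR _ _ _ hy) hxy)
    · rintro x ⟨c, s, hx⟩ y ⟨c', s', hy⟩ hxy
      exact hβ ⟨c, s, hx⟩ ⟨c', s', hy⟩ (hinj XC β g2 d2 x (mC _ _ _ hx) y (mC _ _ _ hy) hxy)
    · rintro x ⟨c, s, hx⟩ y ⟨c', s', hy⟩ hxy
      exact hγ ⟨c, s, hx⟩ ⟨c', s', hy⟩ (hinj XS γ g5 d3 x (mS _ _ _ hx) y (mS _ _ _ hy) hxy)
    · intro r c s ht
      funext i
      show toH _ (χ i (α r)) + toH _ (χ i (β c)) = toH _ (χ i (γ s))
      rw [toH_add (g1 i r (mR _ _ _ ht)) (g2 i c (mC _ _ _ ht)), ← map_add, hs r c s ht]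
  · refine ⟨Φ α', Φ β', Φ γ', ?_, ?_, ?_, ?_⟩
    · rintro x ⟨c, s, hx⟩ y ⟨c', s', hy⟩ hxy
      exact hα' ⟨c, s, hx⟩ ⟨c', s', hy⟩ (hinj XR α' g3 d4 x (mR' _ _ _ hx) y (mR' _ _ _ hy) hxy)
    · rintro x ⟨c, s, hx⟩ y ⟨c', s', hy⟩ hxy
      exact hβ' ⟨c, s, hx⟩ ⟨c', s', hy⟩ (hinj XC β' g4 d5 x (mC' _ _ _ hx) y (mC' _ _ _ hy) hxy)
    · rintro x ⟨c, s, hx⟩ y ⟨c', s', hy⟩ hxy
      exact hγ' ⟨c, s, hx⟩ ⟨c', s', hy⟩ (hinj XS γ' g6 d6 x (mS' _ _ _ hx) y (mS' _ _ _ hy) hxy)
    · intro r c s ht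
      funext i
      show toH _ (χ i (α' r)) + toH _ (χ i (β' c)) = toH _ (χ i (γ' s))
      rw [toH_add (g3 i r (mR' _ _ _ ht)) (g4 i c (mC' _ _ _ ht)), ← map_add, hs' r c s ht]

universe u

/-- (1) If both mates of a latin bitrade `(W, B)` embed in some abelian group, then both embed in an
abelian group generated by at most `2 * log₂ |W| + 5` elements.
(2) There is no family of such bitrades with `|W| → ∞` along which the least rank is at least
`c * |W|` for a constant `c > 0`. -/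
theorem result :
    (∀ W B : Finset (ℕ × ℕ × ℕ), IsBitrade W B →
      (∃ (G : Type u) (_ : AddCommGroup G), Embeds W G ∧ Embeds B G) →
        EmbedInRank W B (2 * Nat.log 2 W.card + 5)) ∧
    ¬ ∃ (W B : ℕ → Finset (ℕ × ℕ × ℕ)) (c : ℝ), 0 < c ∧ (∀ n, IsBitrade (W n) (B n)) ∧
      (∀ n, ∃ (G : Type u) (_ : AddCommGroup G), Embeds (W n) G ∧ Embeds (B n) G) ∧
      Tendsto (fun n => (W n).card) atTop atTop ∧
      ∀ n d, EmbedInRank (W n) (B n) d → c * (W n).card ≤ d := by
  have h1 : ∀ W B : Finset (ℕ × ℕ × ℕ), IsBitrade W B →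
      (∃ (G : Type u) (_ : AddCommGroup G), Embeds W G ∧ Embeds B G) →
        EmbedInRank W B (2 * Nat.log 2 W.card + 5) := by
    rintro W B h ⟨G, _, hW, hB⟩
    exact logBound h hW hB
  refine ⟨h1, ?_⟩
  rintro ⟨W, B, c, hc, hb, he, ht, hr⟩
  have h2 : ∀ n, c * ((W n).card : ℝ) ≤ ((2 * Nat.log 2 (W n).card + 5 : ℕ) : ℝ) :=
    fun n => hr n _ (h1 _ _ (hb n) (he n))
  have h3 : Tendsto (fun n : ℕ => (2 * Real.log n / Real.log 2 + 5) / n) atTop (nhds 0) := by
    have a1 : Tendsto (fun x : ℝ => Real.log x / x) atTop (nhds 0) := by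
      have := Real.isLittleO_log_id_atTop.tendsto_div_nhds_zero
      simpa using this
    have a2 : Tendsto (fun n : ℕ => Real.log n / n) atTop (nhds 0) :=
      a1.comp tendsto_natCast_atTop_atTop
    have a3 : Tendsto (fun n : ℕ => (5 : ℝ) / n) atTop (nhds 0) :=
      tendsto_const_div_atTop_nhds_zero_nat 5
    have a4 := (a2.const_mul (2 / Real.log 2)).add a3
    rw [mul_zero, add_zero] at a4
    refine a4.congr fun n => ?_
    ring
  have h4 := h3.comp ht
  have h5 : ∀ᶠ n in atTop, (2 * Real.log ((W n).card : ℝ) / Real.log 2 + 5) / ((W n).card : ℝ) < c :=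
    h4.eventually_lt_const hc
  have h6 : ∀ᶠ n in atTop, 1 ≤ (W n).card := ht.eventually_ge_atTop 1
  obtain ⟨n, h7, h8⟩ := (h5.and h6).exists
  have hpos : (0 : ℝ) < ((W n).card : ℝ) := by exact_mod_cast h8
  rw [div_lt_iff₀ hpos] at h7
  have h9 : (Nat.log 2 (W n).card : ℝ) ≤ Real.log ((W n).card : ℝ) / Real.log 2 := by
    rw [le_div_iff₀ (Real.log_pos (by norm_num)), ← Real.log_pow]
    apply Real.log_le_log (by positivity)
    exact_mod_cast Nat.pow_log_le_self 2 (by omega)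
  have h10 := h2 n
  push_cast at h10
  have h11 : 2 * Real.log ((W n).card : ℝ) / Real.log 2 =
      2 * (Real.log ((W n).card : ℝ) / Real.log 2) := by ring
  linarith

end Pool.Agent.Results.MP_4671c3_co.LogarithmicRank
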